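import Pool.Graph.R_seed8.R623.I.OC

/-!
# All but countably many Turing degrees contain an introreducible, not finitely decomposable set
-/

set_option autoImplicit false

namespace Pool.Agent.Results.MP_76bd4c_lc.CocountablyManyDegrees

open Pool.Agent.R623.Intro
open Pool.Agent.R623.HTR (st)

/-- `B` is a finite union of sets `D 0, ..., D n` such that, for each `i`, one member of the family
`𝓕` of operators sends every infinite subset of `D i` to `B`. -/
def DecomposableBy (𝓕 : Set (Set ℕ → Set ℕ)) (B : Set ℕ) : Prop :=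
  ∃ (n : ℕ) (D : Fin (n + 1) → Set ℕ), B = ⋃ i, D i ∧
    ∀ i, ∃ F ∈ 𝓕, ∀ C ⊆ D i, C.Infinite → F C = B

/-- `B` is a finite union of sets `D 0, ..., D n` such that, for each `i`, one program computes
`B` from every infinite subset of `D i`. -/
def FinitelyDecomposable (B : Set ℕ) : Prop :=
  ∃ (n : ℕ) (D : Fin (n + 1) → Set ℕ), B = ⋃ i, D i ∧ ∀ i, UniformlyReducible B (D i)

/-- The Turing degree of a set of natural numbers. -/
noncomputable def deg (X : Set ℕ) : TuringDegree :=
  toAntisymmetrization TuringReducible (char X)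

theorem deg_eq {X Y : Set ℕ} : deg X = deg Y ↔ TuringEquivalent (char X) (char Y) :=
  Quotient.eq (r := AntisymmRel.setoid _ TuringReducible)

/-- A recursive function is computed by a program which does not use the oracle. -/
theorem exists_code {f : ℕ →. ℕ} (hf : Nat.Partrec f) : ∃ c : OCode, ∀ g, c.eval g = f := by
  induction hf with
  | zero => exact ⟨.zero, fun g => rfl⟩
  | succ => exact ⟨.succ, fun g => rfl⟩
  | left => exact ⟨.left, fun g => rfl⟩
  | right => exact ⟨.right, fun g => rfl⟩
  | pair _ _ ih1 ih2 =>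
    obtain ⟨a, ha⟩ := ih1
    obtain ⟨b, hb⟩ := ih2
    refine ⟨.pair a b, fun g => ?_⟩
    rw [OCode.eval, ha, hb]
  | comp _ _ ih1 ih2 =>
    obtain ⟨a, ha⟩ := ih1
    obtain ⟨b, hb⟩ := ih2
    refine ⟨.comp a b, fun g => ?_⟩
    rw [OCode.eval, ha, hb]
  | prec _ _ ih1 ih2 =>
    obtain ⟨a, ha⟩ := ih1
    obtain ⟨b, hb⟩ := ih2
    refine ⟨.prec a b, fun g => ?_⟩
    rw [OCode.eval, ha, hb]
  | rfind _ ih =>
    obtain ⟨a, ha⟩ := ih
    refine ⟨.rfind a, fun g => ?_⟩
    rw [OCode.eval, ha]

theorem char_empty : char ∅ = fun _ => Part.some 0 := by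
  funext n
  unfold char
  simp

/-- **All but countably many Turing degrees contain an introreducible set which is not finitely
decomposable.** The set is given by one injective degree-preserving map `A`, all of whose values are
introreducible, and for every countable family of operators (Turing operators, or the arithmetical
ones, or any others) only countably many of the sets `A X` can be decomposed. The degree of the
computable sets is one of the exceptional degrees. -/
theorem result :
    (∃ A : Set ℕ → Set ℕ, Function.Injective A ∧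
      (∀ X, Introreducible (A X) ∧ deg (A X) = deg X) ∧
      (∀ 𝓕 : Set (Set ℕ → Set ℕ), 𝓕.Countable → {X | DecomposableBy 𝓕 (A X)}.Countable) ∧
      {X | FinitelyDecomposable (A X)}.Countable) ∧
    {d : TuringDegree | (∃ X, deg X = d) ∧
      ¬ ∃ A, Introreducible A ∧ ¬ FinitelyDecomposable A ∧ deg A = d}.Countable ∧
    (∀ A, deg A = deg ∅ → FinitelyDecomposable A) := by
  classical
  have main : ∃ A : Set ℕ → Set ℕ, Function.Injective A ∧
      (∀ X, Introreducible (A X) ∧ deg (A X) = deg X) ∧
      (∀ 𝓕 : Set (Set ℕ → Set ℕ), 𝓕.Countable → {X | DecomposableBy 𝓕 (A X)}.Countable) ∧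
      {X | FinitelyDecomposable (A X)}.Countable := by
    have hinj : Function.Injective (fun (X : Set ℕ) (n : ℕ) => decide (n ∈ X)) := by
      intro X Y h
      ext n
      have := congrFun h n
      simpa using this
    refine ⟨fun X => A fun n => decide (n ∈ X), fun X Y h => hinj (A_injective h),
      fun X => ⟨introreducible_A _, ?_⟩, fun 𝓕 h𝓕 => ?_, ?_⟩
    · rw [deg_eq]
      have h := equiv_A fun n => decide (n ∈ X)
      have e : st (fun n => decide (n ∈ X)) = X := by
        ext n
        simp [st]
      rwa [e] at h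
    · have : Countable 𝓕 := h𝓕.to_subtype
      have h1 := countable_dcp (Op := 𝓕) (fun F C B => F.1 C = B)
        (fun F C B B' h h' => h.symm.trans h')
      refine (h1.preimage_of_injOn hinj.injOn).mono ?_
      rintro X ⟨n, D, h2, h3⟩
      refine ⟨n, D, h2, fun i => ?_⟩
      obtain ⟨F, hF, h4⟩ := h3 i
      exact ⟨⟨F, hF⟩, h4⟩
    · have h1 := countable_dcp (fun (c : OCode) (C B : Set ℕ) => c.eval (char C) = char B)
        (fun c C B B' h h' => char_injective (h.symm.trans h'))
      exact h1.preimage_of_injOn hinj.injOn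
  refine ⟨main, ?_, ?_⟩
  · obtain ⟨A, -, h1, -, h2⟩ := main
    refine (h2.image deg).mono ?_
    rintro d ⟨⟨X, rfl⟩, h3⟩
    refine ⟨X, ?_, rfl⟩
    by_contra h4
    exact h3 ⟨A X, (h1 X).1, h4, (h1 X).2⟩
  · intro A hA
    rw [deg_eq] at hA
    have h1 : Nat.Partrec (char A) := by
      have h2 : TuringReducible (char A) (fun _ => Part.some 0) := by
        rw [← char_empty]
        exact hA.1
      exact Partrec.nat_iff.1 h2.partrec_of_const
    obtain ⟨c, hc⟩ := exists_code h1
    exact ⟨0, fun _ => A, (Set.iUnion_const A).symm, fun _ => ⟨c, fun C _ _ => hc _⟩⟩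

end Pool.Agent.Results.MP_76bd4c_lc.CocountablyManyDegrees
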